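import Pool.Agent.H68R3.Pol5

set_option autoImplicit false

/-!
# Hardy–Morrey constant of domains bounded by a topological sphere (MP_f42450_an)

We prove, for every `n ≥ 1` and every `p > n`, that every bounded open nonempty `Ω ⊆ ℝⁿ` whose
boundary is homeomorphic to the sphere `S^{n-1}` satisfies `λ_p(Ω) ≥ λ_p(C_π)`, where `C_π` is the
complement of a closed half-line.
-/

open MeasureTheory Filter Topology Set
open scoped ENNReal NNReal RealInnerProductSpace

namespace Pool.Agent.Results.MP_f42450_an.SphereBoundary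

/-- Euclidean space `ℝⁿ` -/
abbrev E (n : ℕ) := EuclideanSpace ℝ (Fin n)

variable {n : ℕ}

/-- `g` is the weak gradient of `u`: `∫ u ∇φ = - ∫ φ g` for all test functions `φ` -/
def IsWeakGradient (u : E n → ℝ) (g : E n → E n) : Prop :=
  ∀ φ : E n → ℝ, ContDiff ℝ (⊤ : ℕ∞) φ → HasCompactSupport φ →
    ∫ x, u x • gradient φ x = - ∫ x, φ x • g x

/-- `u ∈ D^{1,p}_0(Ω)`, with weak gradient `g`: `u` is the continuous representative of a function
whose weak gradient `g` is in `L^p(ℝⁿ)`, and `u = 0` outside `Ω` -/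
structure MemD0 (p : ℝ) (Ω : Set (E n)) (u : E n → ℝ) (g : E n → E n) : Prop where
  cont : Continuous u
  grad : IsWeakGradient u g
  memLp : MemLp g (ENNReal.ofReal p) volume
  zero : ∀ x, x ∉ Ω → u x = 0

/-- `‖Du‖_p^p` -/
noncomputable def energy (p : ℝ) (g : E n → E n) : ℝ≥0∞ := ∫⁻ x, ‖g x‖ₑ ^ p

/-- `‖u / d_Ω^{1-n/p}‖_∞`, the supremum over `Ω` -/
noncomputable def weightedSup (p : ℝ) (Ω : Set (E n)) (u : E n → ℝ) : ℝ≥0∞ :=
  ⨆ x ∈ Ω, ENNReal.ofReal (|u x| / Metric.infDist x Ωᶜ ^ (1 - (n : ℝ) / p))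

/-- the Hardy–Morrey constant `λ_p(Ω)` -/
noncomputable def hardyMorrey (p : ℝ) (Ω : Set (E n)) : ℝ≥0∞ :=
  ⨅ (u : E n → ℝ) (g : E n → E n) (_ : MemD0 p Ω u g) (_ : u ≠ 0),
    energy p g / weightedSup p Ω u ^ p

/-- the open cone of half-opening angle `φ` about the unit vector `e` -/
def cone (e : E n) (φ : ℝ) : Set (E n) := {x | ‖x‖ * Real.cos φ < ⟪x, e⟫}

open Pool.Agent.H68R3
open Pool.Agent.Helper533.Polar (H0 Cc Lp_dct)

/-! ### topology -/

theorem cross {X : Type*} [TopologicalSpace X] {t s : Set X} (ht : IsPreconnected t)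
    (h1 : (t ∩ s).Nonempty) (h2 : (t ∩ sᶜ).Nonempty) : (t ∩ frontier s).Nonempty := by
  by_contra h
  rw [Set.not_nonempty_iff_eq_empty] at h
  have hsub : t ⊆ interior s ∪ (closure s)ᶜ := by
    intro x hx
    by_contra hc
    rw [mem_union, not_or] at hc
    have : x ∈ t ∩ frontier s := ⟨hx, not_not.1 hc.2, hc.1⟩
    rw [h] at this
    exact this
  obtain ⟨x, hx, hxs⟩ := h1
  obtain ⟨y, hy, hys⟩ := h2
  have h3 : (t ∩ interior s).Nonempty := by
    refine ⟨x, hx, ?_⟩
    rcases hsub hx with h4 | h4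
    · exact h4
    · exact absurd (subset_closure hxs) h4
  have h4 : (t ∩ (closure s)ᶜ).Nonempty := by
    refine ⟨y, hy, ?_⟩
    rcases hsub hy with h5 | h5
    · exact absurd (interior_subset h5) hys
    · exact h5
  obtain ⟨z, -, hz1, hz2⟩ := ht _ _ isOpen_interior isClosed_closure.isOpen_compl hsub h3 h4
  exact hz2 (subset_closure (interior_subset hz1))

/-- frontier points on both sides of a sphere contained in `Ω` -/
theorem frontier_inside {Ω : Set (E n)} {x : E n} (hx : x ∈ Ω) {r : ℝ}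
    (hr : Metric.infDist x Ωᶜ ≤ r) (hne : (Ωᶜ).Nonempty) (hΩ : IsOpen Ω)
    (hS : Metric.sphere x r ⊆ Ω) : ∃ y ∈ frontier Ω, dist y x < r := by
  obtain ⟨y, hy, hyd⟩ := hΩ.isClosed_compl.exists_infDist_eq_dist hne x
  have hyr : dist y x < r := by
    rw [dist_comm] at hyd
    rcases lt_or_eq_of_le (hyd ▸ hr) with h | h
    · exact h
    · exact absurd (hS (Metric.mem_sphere.2 h)) hy
  have hseg : IsPreconnected (segment ℝ x y) := (convex_segment x y).isPreconnected
  obtain ⟨z, hz, hzf⟩ := cross hseg ⟨x, left_mem_segment ℝ x y, hx⟩ ⟨y, right_mem_segment ℝ x y, hy⟩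
  refine ⟨z, hzf, ?_⟩
  have : z ∈ Metric.ball x r := by
    refine (convex_ball x r).segment_subset ?_ ?_ hz
    · exact Metric.mem_ball_self (dist_nonneg.trans_lt hyr)
    · exact hyr
  exact this

theorem frontier_outside {Ω : Set (E n)} {x v : E n} (hv : ‖v‖ = 1) {r : ℝ} (hr : 0 ≤ r)
    (hb : Bornology.IsBounded Ω) (hΩ : IsOpen Ω)
    (hS : Metric.sphere x r ⊆ Ω) : ∃ t, r < t ∧ x + t • v ∈ frontier Ω := by
  have hcont : Continuous fun t : ℝ => x + t • v := by fun_prop
  have hray : IsPreconnected ((fun t : ℝ => x + t • v) '' Ici r) :=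
    isPreconnected_Ici.image _ hcont.continuousOn
  obtain ⟨M, hM⟩ := hb.subset_closedBall x
  have h1 : x + r • v ∈ Ω := hS (by
    rw [Metric.mem_sphere, dist_eq_norm, add_sub_cancel_left, norm_smul, hv, mul_one,
      Real.norm_eq_abs, abs_of_nonneg hr])
  have h2 : x + (max r (M + 1)) • v ∉ Ω := by
    intro h
    have := hM h
    rw [Metric.mem_closedBall, dist_eq_norm, add_sub_cancel_left, norm_smul, hv, mul_one,
      Real.norm_eq_abs, abs_of_nonneg (hr.trans (le_max_left _ _))] at this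
    linarith [le_max_right r (M + 1)]
  obtain ⟨z, ⟨t, ht, rfl⟩, hz⟩ := cross hray ⟨_, ⟨r, mem_Ici.2 le_rfl, rfl⟩, h1⟩
    ⟨_, ⟨max r (M + 1), mem_Ici.2 (le_max_left _ _), rfl⟩, h2⟩
  refine ⟨t, lt_of_le_of_ne ht ?_, hz⟩
  rintro rfl
  rw [hΩ.frontier_eq] at hz
  exact hz.2 h1

/-- every large sphere about a point of `Ω` meets the complement -/
theorem meets_compl (hn : 1 ≤ n) {Ω : Set (E n)} (hΩ : IsOpen Ω) (hb : Bornology.IsBounded Ω)
    (hS : Nonempty (frontier Ω ≃ₜ Metric.sphere (0 : E n) 1)) {x : E n} (hx : x ∈ Ω) {r : ℝ}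
    (hr : Metric.infDist x Ωᶜ ≤ r) : ∃ y, dist y x = r ∧ y ∉ Ω := by
  by_contra hcon
  push Not at hcon
  have hsub : Metric.sphere x r ⊆ Ω := fun y hy => hcon y hy
  have hr0 : 0 ≤ r := Metric.infDist_nonneg.trans hr
  have : Nonempty (Fin n) := ⟨⟨0, hn⟩⟩
  obtain ⟨v, hv⟩ : ∃ v : E n, ‖v‖ = 1 := ⟨EuclideanSpace.single ⟨0, hn⟩ 1, by simp⟩
  have hne : (Ωᶜ).Nonempty := by
    obtain ⟨t, -, ht⟩ := frontier_outside hv hr0 hb hΩ hsub
    rw [hΩ.frontier_eq] at ht
    exact ⟨_, ht.2⟩
  obtain ⟨y1, hy1, hy1r⟩ := frontier_inside hx hr hne hΩ hsub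
  obtain ⟨t, ht, hyt⟩ := frontier_outside hv hr0 hb hΩ hsub
  obtain ⟨F⟩ := hS
  have hdist : ∀ (s : ℝ) (v' : E n), ‖v'‖ = 1 → 0 ≤ s → dist (x + s • v') x = s := by
    intro s v' hv' hs
    rw [dist_eq_norm, add_sub_cancel_left, norm_smul, hv', mul_one, Real.norm_eq_abs,
      abs_of_nonneg hs]
  rcases Nat.lt_or_ge 1 n with h2 | h2
  · -- the frontier is preconnected
    have hrank : 1 < Module.rank ℝ (E n) := by
      rw [← Module.finrank_eq_rank, finrank_euclideanSpace_fin]
      exact_mod_cast h2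
    have hps : PreconnectedSpace (Metric.sphere (0 : E n) 1) :=
      Subtype.preconnectedSpace (isPreconnected_sphere hrank 0 1)
    have hpf : PreconnectedSpace (frontier Ω) :=
      ⟨by
        have h3 := (isPreconnected_univ (α := Metric.sphere (0 : E n) 1)).image F.symm
          F.symm.continuous.continuousOn
        rwa [image_univ, F.symm.surjective.range_eq] at h3⟩
    have hpre : IsPreconnected (frontier Ω) := isPreconnected_iff_preconnectedSpace.2 hpf
    obtain ⟨z, hz, hz1, hz2⟩ := hpre (Metric.ball x r) (Metric.closedBall x r)ᶜ Metric.isOpen_ball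
      Metric.isClosed_closedBall.isOpen_compl (by
        intro z hz
        rcases lt_trichotomy (dist z x) r with h | h | h
        · exact Or.inl h
        · rw [hΩ.frontier_eq] at hz
          exact absurd (hsub h) hz.2
        · exact Or.inr (by simpa using h)) ⟨y1, hy1, hy1r⟩
      ⟨_, hyt, by simp only [mem_compl_iff, Metric.mem_closedBall, not_le]
                  rw [hdist t v hv (hr0.trans ht.le)]; exact ht⟩
    exact hz2 (Metric.ball_subset_closedBall hz1)
  · -- dimension one: three points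
    have hn1 : n = 1 := by omega
    subst hn1
    obtain ⟨s, hs, hys⟩ := frontier_outside (v := -v) (by rwa [norm_neg]) hr0 hb hΩ hsub
    have key : ∀ a b c : Metric.sphere (0 : E 1) 1, a = b ∨ b = c ∨ a = c := by
      have hval : ∀ a : Metric.sphere (0 : E 1) 1, (a : E 1) 0 = 1 ∨ (a : E 1) 0 = -1 := by
        intro a
        have h1 : ‖(a : E 1)‖ = 1 := mem_sphere_zero_iff_norm.1 a.2
        rw [EuclideanSpace.norm_eq] at h1
        simp only [Finset.univ_unique, Fin.default_eq_zero, Finset.sum_singleton,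
          Real.norm_eq_abs, sq_abs, Real.sqrt_eq_one] at h1
        exact mul_self_eq_one_iff.1 (by rw [← sq]; exact h1)
      have hext : ∀ a b : Metric.sphere (0 : E 1) 1, (a : E 1) 0 = (b : E 1) 0 → a = b := by
        intro a b hab
        apply Subtype.ext
        ext i
        rw [Subsingleton.elim i 0]; exact hab
      intro a b c
      rcases hval a with h1 | h1 <;> rcases hval b with h2 | h2 <;> rcases hval c with h3 | h3
      all_goals first
        | exact Or.inl (hext _ _ (h1.trans h2.symm))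
        | exact Or.inr (Or.inl (hext _ _ (h2.trans h3.symm)))
        | exact Or.inr (Or.inr (hext _ _ (h1.trans h3.symm)))
    have d1 : dist y1 x < r := hy1r
    have d2 : dist (x + t • v) x = t := hdist t v hv (hr0.trans ht.le)
    have d3 : dist (x + s • -v) x = s := hdist s (-v) (by rwa [norm_neg]) (hr0.trans hs.le)
    have ne1 : y1 ≠ x + t • v := by
      intro h; rw [h, d2] at d1; linarith
    have ne2 : y1 ≠ x + s • -v := by
      intro h; rw [h, d3] at d1; linarith
    have ne3 : x + t • v ≠ x + s • -v := by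
      intro h
      have h4 : (t + s) • v = 0 := by
        have h5 := add_left_cancel h
        rw [smul_neg] at h5
        rw [add_smul, h5]; simp
      have h6 : ‖(t + s) • v‖ = 0 := by rw [h4, norm_zero]
      rw [norm_smul, hv, mul_one, Real.norm_eq_abs, abs_eq_zero] at h6
      linarith
    rcases key (F ⟨y1, hy1⟩) (F ⟨_, hyt⟩) (F ⟨_, hys⟩) with h | h | h
    · exact ne1 (congrArg Subtype.val (F.injective h))
    · exact ne3 (congrArg Subtype.val (F.injective h))
    · exact ne2 (congrArg Subtype.val (F.injective h))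

/-! ### analysis -/

theorem isWeakGradient_translate {u : E n → ℝ} {g : E n → E n} (h : IsWeakGradient u g) (x : E n) :
    IsWeakGradient (fun y => u (x + y)) (fun y => g (x + y)) := by
  intro φ hφ hφc
  have h1 : ContDiff ℝ (⊤ : ℕ∞) (fun z => φ (z - x)) := hφ.comp (contDiff_id.sub contDiff_const)
  have h2 : HasCompactSupport (fun z => φ (z - x)) :=
    hφc.comp_homeomorph (Homeomorph.subRight x)
  have h3 := h _ h1 h2
  have hgrad : ∀ z, gradient (fun z => φ (z - x)) z = gradient φ (z - x) := by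
    intro z
    unfold gradient
    rw [fderiv_comp_sub]
  have e1 : ∫ y, u (x + y) • gradient φ y = ∫ z, u z • gradient (fun z => φ (z - x)) z := by
    rw [← integral_add_left_eq_self (fun z => u z • gradient (fun z => φ (z - x)) z) x]
    congr 1; ext1 y
    rw [hgrad, add_sub_cancel_left]
  have e2 : ∫ y, φ y • g (x + y) = ∫ z, φ (z - x) • g z := by
    rw [← integral_add_left_eq_self (fun z => φ (z - x) • g z) x]
    congr 1; ext1 y
    rw [add_sub_cancel_left]
  rw [e1, e2, h3]

theorem MemD0.translate {p : ℝ} {Ω : Set (E n)} {u : E n → ℝ} {g : E n → E n} (h : MemD0 p Ω u g)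
    (x : E n) : MemD0 p ((fun y => x + y) ⁻¹' Ω) (fun y => u (x + y)) (fun y => g (x + y)) :=
  ⟨by have := h.cont; fun_prop, isWeakGradient_translate h.grad x,
    h.memLp.comp_measurePreserving (measurePreserving_add_left volume x),
    fun y hy => h.zero _ hy⟩

/-- compactly supported members are in the closure of the test functions -/
theorem MemD0.toH0 (hn : 1 ≤ n) {p : ℝ} (hp : 1 < p) {Ω : Set (E n)} {u : E n → ℝ} {g : E n → E n}
    (h : MemD0 p Ω u g) (hb : Bornology.IsBounded Ω) : H0 p volume univ u g := by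
  have hK : IsCompact (closure Ω) := hb.isCompact_closure
  have hcs : HasCompactSupport u := HasCompactSupport.intro hK fun x hx =>
    h.zero x fun h' => hx (subset_closure h')
  have hu : MemLp u (ENNReal.ofReal p) volume := h.cont.memLp_of_hasCompactSupport hcs
  refine ⟨hu, h.memLp, fun ε hε => ?_⟩
  obtain ⟨δ, hδ, hδε⟩ : ∃ δ : ℝ, 0 < δ ∧ ENNReal.ofReal δ ≤ ε := by
    by_cases ht : ε = ∞
    · exact ⟨1, one_pos, by rw [ht]; exact le_top⟩
    · exact ⟨ε.toReal, ENNReal.toReal_pos hε ht, ENNReal.ofReal_toReal_le⟩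
  obtain ⟨φ, h1, -, h2, h3, -, -⟩ := Pool.Agent.Helper533.Polar.mollify_weak hn hp hu h.memLp hK
    (Eventually.of_forall fun x hx => h.zero x fun h' => hx (subset_closure h'))
    (fun φ hφ => h.grad φ hφ.smooth hφ.comp) hδ
  exact ⟨φ, h1, h2.trans hδε, h3.trans hδε⟩

theorem energy_eq {p : ℝ} (hp : 1 < p) (g : E n → E n) :
    energy p g = eLpNorm g (ENNReal.ofReal p) volume ^ p := by
  have hp0 : 0 < p := by linarith
  have hP0 : ENNReal.ofReal p ≠ 0 := by simpa using hp0
  rw [eLpNorm_eq_lintegral_rpow_enorm_toReal hP0 ENNReal.ofReal_ne_top,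
    ENNReal.toReal_ofReal hp0.le, ← ENNReal.rpow_mul, one_div, inv_mul_cancel₀ hp0.ne',
    ENNReal.rpow_one]
  rfl

/-- the key estimate at one point -/
theorem key_estimate (hn : 1 ≤ n) {p : ℝ} (hp : (n : ℝ) < p) {e : E n} (he : ‖e‖ = 1)
    {Ω : Set (E n)} (hΩ : IsOpen Ω) (hb : Bornology.IsBounded Ω)
    (hS : Nonempty (frontier Ω ≃ₜ Metric.sphere (0 : E n) 1)) {u : E n → ℝ} {g : E n → E n}
    (h : MemD0 p Ω u g) {x : E n} (hx : x ∈ Ω) :
    hardyMorrey p (cone e Real.pi) *
      ENNReal.ofReal (|u x| / Metric.infDist x Ωᶜ ^ (1 - (n : ℝ) / p)) ^ p ≤ energy p g := by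
  have hn' : (1 : ℝ) ≤ n := by exact_mod_cast hn
  have hp1 : 1 < p := by linarith
  have hp0 : 0 < p := by linarith
  by_cases hux : u x = 0
  · rw [hux, abs_zero, zero_div, ENNReal.ofReal_zero, ENNReal.zero_rpow_of_pos hp0, mul_zero]
    exact zero_le
  have hne : (Ωᶜ).Nonempty := by
    rw [nonempty_compl]
    rintro rfl
    rw [frontier_univ] at hS
    obtain ⟨F⟩ := hS
    exact (F.symm ⟨e, by simp [he]⟩).2
  set d : ℝ := Metric.infDist x Ωᶜ with hd
  have hd0 : 0 < d := (hΩ.isClosed_compl.notMem_iff_infDist_pos hne).1 (fun h' => h' hx)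
  -- the translated absolute value
  have hT := h.translate x
  have hbT : Bornology.IsBounded ((fun y => x + y) ⁻¹' Ω) := by
    obtain ⟨M, hM⟩ := hb.subset_closedBall x
    refine Metric.isBounded_closedBall.subset (t := Metric.closedBall 0 M) ?_ |>.subset subset_rfl
    intro y hy
    have := hM hy
    simpa using this
  have hH := H0_abs hp1 (hT.toH0 hn hp1 hbT)
  set v : E n → ℝ := fun y => |u (x + y)| with hv
  set G : E n → E n := fun y => (SignType.sign (u (x + y)) : ℝ) • g (x + y) with hG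
  have hGle : eLpNorm G (ENNReal.ofReal p) volume ≤ eLpNorm g (ENNReal.ofReal p) volume := by
    have h1 : eLpNorm G (ENNReal.ofReal p) volume ≤
        eLpNorm (fun y => g (x + y)) (ENNReal.ofReal p) volume := by
      refine eLpNorm_mono fun y => ?_
      simp only [G]
      rw [norm_smul]
      refine mul_le_of_le_one_left (norm_nonneg _) ?_
      rcases lt_trichotomy (u (x + y)) 0 with h2 | h2 | h2
      · rw [sign_neg h2]; simp
      · rw [h2]; simp
      · rw [sign_pos h2]; simp
    refine h1.trans (le_of_eq ?_)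
    exact eLpNorm_comp_measurePreserving h.memLp.1 (measurePreserving_add_left volume x)
  obtain ⟨M, hM0, hM⟩ : ∃ M : ℝ, 0 < M ∧ ∀ y, x + y ∈ Ω → ‖y‖ < M := by
    obtain ⟨M, hM⟩ := hb.subset_closedBall x
    refine ⟨max M 0 + 1, by positivity, fun y hy => ?_⟩
    have := hM hy
    rw [Metric.mem_closedBall, dist_eq_norm, add_sub_cancel_left] at this
    linarith [le_max_left M 0]
  have hvc : Continuous v := by have := h.cont; simp only [v]; fun_prop
  have hvout : ∀ y, M ≤ ‖y‖ → v y = 0 := by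
    intro y hy
    simp only [v]
    rw [h.zero (x + y) (fun h' => absurd (hM y h') (not_lt.2 hy)), abs_zero]
  have hvs : HasCompactSupport v := by
    refine HasCompactSupport.intro (isCompact_closedBall (0 : E n) M) fun y hy => hvout y ?_
    simp only [Metric.mem_closedBall, dist_zero_right, not_le] at hy
    exact hy.le
  obtain ⟨B, hB⟩ := hvc.bounded_above_of_compact_support hvs
  have huc : UniformContinuous v := hvs.uniformContinuous_of_continuous hvc
  have hδex : ∀ ε : ℝ, ∃ δ : ℝ, 0 < ε → 0 < δ ∧ ∀ y z, dist y z < δ → |v y - v z| ≤ ε := by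
    intro ε
    by_cases hε : 0 < ε
    · obtain ⟨δ, hδ, h1⟩ := Metric.uniformContinuous_iff.1 huc ε hε
      refine ⟨δ, fun _ => ⟨hδ, fun y z hyz => ?_⟩⟩
      have := h1 hyz
      rw [Real.dist_eq] at this
      exact this.le
    · exact ⟨1, fun h' => absurd h' hε⟩
  choose δ hδ using hδex
  have hcls : Cls p (eLpNorm g (ENNReal.ofReal p) volume) δ M B d (|u x|) v := by
    refine ⟨⟨G, hH, hGle⟩, fun ε hε => (hδ ε hε).2, fun y => abs_nonneg _, fun y => ?_, ?_, hvout, ?_⟩
    · exact (le_abs_self _).trans (hB y)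
    · simp [v]
    · intro r hr
      obtain ⟨y, hy, hyΩ⟩ := meets_compl hn hΩ hb hS hx hr
      refine ⟨y - x, by rw [← dist_eq_norm, hy], ?_⟩
      simp only [v]
      rw [add_sub_cancel, h.zero y hyΩ, abs_zero]
  have hB0 : 0 ≤ B := (norm_nonneg _).trans (hB 0)
  obtain ⟨w, hw, hw0⟩ := exists_symm hp1 (fun ε hε => (hδ ε hε).1) h.memLp.2.ne hB0 he hd0 hcls
  obtain ⟨W, hWH, hWC⟩ := hw.sob
  -- the competitor in the slit space
  have hmem0 : MemD0 p univ w W :=
    ⟨hw.continuous fun ε hε => (hδ ε hε).1, fun φ h1 h2 =>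
      Pool.Agent.Helper533.Polar.H0.ibp hp1 hWH ⟨h1, h2, subset_univ _⟩, hWH.mU,
      fun y hy => absurd (mem_univ y) hy⟩
  have hmem1 := hmem0.translate (-(d • e))
  set w' : E n → ℝ := fun y => w (-(d • e) + y) with hw'
  set W' : E n → E n := fun y => W (-(d • e) + y) with hW'
  have hee : ⟪e, e⟫ = (1 : ℝ) := by rw [real_inner_self_eq_norm_sq, he]; norm_num
  have hmem : MemD0 p (cone e Real.pi) w' W' := by
    refine ⟨hmem1.cont, hmem1.grad, hmem1.memLp, fun y hy => ?_⟩
    simp only [cone, mem_ofPred_eq, Real.cos_pi, mul_neg, mul_one, not_lt] at hy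
    -- `y` is a nonpositive multiple of `e`
    have hyy : y = -(‖y‖ • e) := by
      have h1 : ‖y + ‖y‖ • e‖ ^ 2 ≤ 0 := by
        rw [norm_add_sq_real, norm_smul, inner_smul_right, he, norm_norm]
        nlinarith [norm_nonneg y]
      have h2 : ‖y + ‖y‖ • e‖ = 0 := by
        have := norm_nonneg (y + ‖y‖ • e)
        nlinarith
      rw [norm_eq_zero] at h2
      exact eq_neg_of_add_eq_zero_left h2
    have h3 := hw0 (d + ‖y‖) (by linarith [norm_nonneg y])
    simp only [w']
    rw [hyy, show -(d • e) + -(‖y‖ • e) = -((d + ‖y‖) • e) by rw [add_smul]; abel]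
    rw [hyy, norm_neg, norm_smul, norm_norm, he, mul_one] at h3
    exact h3
  -- distance
  have hde : d • e ∈ cone e Real.pi := by
    simp only [cone, mem_ofPred_eq, Real.cos_pi, norm_smul, he, inner_smul_left, hee]
    simp only [Real.norm_eq_abs, abs_of_pos hd0, conj_trivial]
    linarith
  have h0c : (0 : E n) ∈ (cone e Real.pi)ᶜ := by
    simp [cone]
  have hdist : Metric.infDist (d • e) (cone e Real.pi)ᶜ = d := by
    apply le_antisymm
    · refine (Metric.infDist_le_dist_of_mem h0c).trans ?_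
      rw [dist_zero_right, norm_smul, he, mul_one, Real.norm_eq_abs, abs_of_pos hd0]
    · refine (Metric.le_infDist ⟨0, h0c⟩).2 fun y hy => ?_
      simp only [cone, mem_compl_iff, mem_ofPred_eq, Real.cos_pi, mul_neg, mul_one, not_lt] at hy
      rw [dist_eq_norm]
      refine le_of_sq_le_sq ?_ (norm_nonneg _)
      rw [norm_sub_sq_real, norm_smul, he, mul_one, Real.norm_eq_abs, sq_abs, inner_smul_left,
        real_inner_comm]
      simp only [conj_trivial]
      nlinarith [norm_nonneg y, mul_nonneg hd0.le (norm_nonneg y)]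
  have hw'd : w' (d • e) = |u x| := by
    simp only [w']
    rw [neg_add_cancel, hw.zero]
  have hpos : 0 < |u x| / d ^ (1 - (n : ℝ) / p) :=
    div_pos (abs_pos.2 hux) (Real.rpow_pos_of_pos hd0 _)
  have hsup : ENNReal.ofReal (|u x| / d ^ (1 - (n : ℝ) / p)) ≤
      weightedSup p (cone e Real.pi) w' := by
    unfold weightedSup
    refine le_trans (le_of_eq ?_) (le_iSup₂ (f := fun y (_ : y ∈ cone e Real.pi) =>
      ENNReal.ofReal (|w' y| / Metric.infDist y (cone e Real.pi)ᶜ ^ (1 - (n : ℝ) / p)))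
      (d • e) hde)
    rw [hdist, hw'd, abs_abs]
  have hw'0 : w' ≠ 0 := by
    intro h0
    have := congrFun h0 (d • e)
    rw [hw'd] at this
    exact hux (abs_eq_zero.1 this)
  have hlam : hardyMorrey p (cone e Real.pi) ≤
      energy p W' / weightedSup p (cone e Real.pi) w' ^ p := by
    unfold hardyMorrey
    exact iInf₂_le_of_le w' W' (iInf₂_le_of_le hmem hw'0 le_rfl)
  have hEn : energy p W' ≤ energy p g := by
    rw [energy_eq hp1, energy_eq hp1]
    refine ENNReal.rpow_le_rpow ?_ hp0.le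
    refine (le_of_eq ?_).trans hWC
    exact eLpNorm_comp_measurePreserving hWH.mU.1 (measurePreserving_add_left volume _)
  have hEt : energy p W' ≠ ∞ := by
    rw [energy_eq hp1]
    exact ENNReal.rpow_ne_top_of_nonneg hp0.le hmem.memLp.2.ne
  have hs0 : weightedSup p (cone e Real.pi) w' ^ p ≠ 0 := by
    have h1 : 0 < weightedSup p (cone e Real.pi) w' :=
      lt_of_lt_of_le (ENNReal.ofReal_pos.2 hpos) hsup
    exact (ENNReal.rpow_pos_of_nonneg h1 hp0.le).ne'
  have h5 := (ENNReal.le_div_iff_mul_le (Or.inl hs0) (Or.inr hEt)).1 hlam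
  calc hardyMorrey p (cone e Real.pi) *
        ENNReal.ofReal (|u x| / d ^ (1 - (n : ℝ) / p)) ^ p
      ≤ hardyMorrey p (cone e Real.pi) * weightedSup p (cone e Real.pi) w' ^ p :=
        mul_le_mul' le_rfl (ENNReal.rpow_le_rpow hsup hp0.le)
    _ ≤ energy p W' := h5
    _ ≤ energy p g := hEn

/-- **Main theorem.** For every `n ≥ 1`, every `p > n` and every bounded open nonempty
`Ω ⊆ ℝⁿ` whose boundary is homeomorphic to the sphere `S^{n-1}`,
`λ_p(Ω) ≥ λ_p(C_π)`, where `C_π` is the complement of a closed half-line. -/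
theorem result (n : ℕ) (hn : 1 ≤ n) (p : ℝ) (hp : (n : ℝ) < p) (e : E n) (he : ‖e‖ = 1)
    (Ω : Set (E n)) (hΩ : IsOpen Ω) (hne : Ω.Nonempty) (hb : Bornology.IsBounded Ω)
    (hS : Nonempty (frontier Ω ≃ₜ Metric.sphere (0 : E n) 1)) :
    hardyMorrey p (cone e Real.pi) ≤ hardyMorrey p Ω := by
  have hn' : (1 : ℝ) ≤ n := by exact_mod_cast hn
  have hp1 : 1 < p := by linarith
  have hp0 : 0 < p := by linarith
  conv_rhs => unfold hardyMorrey
  refine le_iInf₂ fun u g => le_iInf₂ fun h hu => ?_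
  have hEt : energy p g ≠ ∞ := by
    rw [energy_eq hp1]
    exact ENNReal.rpow_ne_top_of_nonneg hp0.le h.memLp.2.ne
  -- the supremum
  have hmul : hardyMorrey p (cone e Real.pi) * weightedSup p Ω u ^ p ≤ energy p g := by
    have hmono : weightedSup p Ω u ^ p =
        ⨆ x ∈ Ω, ENNReal.ofReal (|u x| / Metric.infDist x Ωᶜ ^ (1 - (n : ℝ) / p)) ^ p := by
      unfold weightedSup
      have e1 : ∀ t : ℝ≥0∞, (ENNReal.orderIsoRpow p hp0) t = t ^ p := fun t => rfl
      rw [← e1, (ENNReal.orderIsoRpow p hp0).map_iSup]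
      congr 1; ext x
      rw [(ENNReal.orderIsoRpow p hp0).map_iSup]
      rfl
    rw [hmono, ENNReal.mul_iSup]
    refine iSup_le fun x => ?_
    rw [ENNReal.mul_iSup]
    exact iSup_le fun hx => key_estimate hn hp he hΩ hb hS h hx
  have hs0 : weightedSup p Ω u ^ p ≠ 0 := by
    obtain ⟨x, hx⟩ : ∃ x, u x ≠ 0 := by
      by_contra hcon
      push Not at hcon
      exact hu (funext hcon)
    have hxΩ : x ∈ Ω := by
      by_contra h'
      exact hx (h.zero x h')
    have hcne : (Ωᶜ).Nonempty := by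
      rw [nonempty_compl]
      rintro rfl
      rw [frontier_univ] at hS
      obtain ⟨F⟩ := hS
      exact (F.symm ⟨e, by simp [he]⟩).2
    have hd0 : 0 < Metric.infDist x Ωᶜ :=
      (hΩ.isClosed_compl.notMem_iff_infDist_pos hcne).1 (fun h' => h' hxΩ)
    have h1 : ENNReal.ofReal (|u x| / Metric.infDist x Ωᶜ ^ (1 - (n : ℝ) / p)) ≤
        weightedSup p Ω u := by
      unfold weightedSup
      exact le_iSup₂ (f := fun y (_ : y ∈ Ω) =>
        ENNReal.ofReal (|u y| / Metric.infDist y Ωᶜ ^ (1 - (n : ℝ) / p))) x hxΩ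
    have h2 : 0 < weightedSup p Ω u := lt_of_lt_of_le
      (ENNReal.ofReal_pos.2 (div_pos (abs_pos.2 hx) (Real.rpow_pos_of_pos hd0 _))) h1
    exact (ENNReal.rpow_pos_of_nonneg h2 hp0.le).ne'
  exact (ENNReal.le_div_iff_mul_le (Or.inl hs0) (Or.inr hEt)).2 hmul

end Pool.Agent.Results.MP_f42450_an.SphereBoundary
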